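import Pool.Agent.H75R3.NN11

/-!
For every `1 < p < ∞` the space `L_p(ℝ)` has a Schauder basis consisting of non-negative functions.
-/

set_option autoImplicit false

namespace Pool.Agent.Results.MP_ada34c_an.NonnegBasis

open MeasureTheory Filter Topology
open scoped ENNReal

/-- Uniqueness of expansions with respect to a Schauder basis. -/
theorem unique_expansion {X : Type*} [NormedAddCommGroup X] [NormedSpace ℝ X]
    (b : SchauderBasis ℝ X) (x : X) :
    ∃! a : ℕ → ℝ, Tendsto (fun N => ∑ n ∈ Finset.range N, a n • b n) atTop (𝓝 x) := by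
  have hort : ∀ i j, b.coord i (b j) = if i = j then 1 else 0 := by
    intro i j
    rw [b.ortho]
    by_cases h : i = j
    · subst h
      simp
    · rw [if_neg h]
      simp [Pi.single_apply, h]
  refine ⟨fun n => b.coord n x, ?_, ?_⟩
  · have h := b.expansion x
    rw [HasSum, SummationFilter.conditional_filter_eq_map_range, tendsto_map'_iff] at h
    exact h
  · intro a ha
    funext m
    have h1 : Tendsto (fun N => b.coord m (∑ n ∈ Finset.range N, a n • b n)) atTop
        (𝓝 (b.coord m x)) := ((b.coord m).continuous.tendsto x).comp ha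
    have h2 : ∀ N, m + 1 ≤ N → b.coord m (∑ n ∈ Finset.range N, a n • b n) = a m := by
      intro N hN
      rw [map_sum]
      rw [Finset.sum_eq_single_of_mem m (Finset.mem_range.2 (by omega))]
      · rw [map_smul, hort, if_pos rfl, smul_eq_mul, mul_one]
      · intro n _ hn
        rw [map_smul, hort, if_neg (Ne.symm hn), smul_zero]
    have h3 : Tendsto (fun N => b.coord m (∑ n ∈ Finset.range N, a n • b n)) atTop (𝓝 (a m)) :=
      tendsto_const_nhds.congr' (by
        filter_upwards [eventually_ge_atTop (m + 1)] with N hN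
        rw [h2 N hN])
    exact tendsto_nhds_unique h3 h1

/-- For every `1 < p < ∞` the real Banach space `L_p(ℝ)` has a Schauder basis `b` all of whose
elements are non-negative functions; every `x` has a unique norm-convergent expansion
`x = ∑ a n • b n`. -/
theorem result (p : ℝ≥0∞) [Fact (1 ≤ p)] (hp1 : 1 < p) (hp : p ≠ ∞) :
    ∃ b : SchauderBasis ℝ (Lp ℝ p (volume : Measure ℝ)),
      (∀ n, ∀ᵐ t ∂(volume : Measure ℝ), 0 ≤ (b n : ℝ → ℝ) t) ∧
      ∀ x : Lp ℝ p (volume : Measure ℝ), ∃! a : ℕ → ℝ,
        Tendsto (fun N => ∑ n ∈ Finset.range N, a n • b n) atTop (𝓝 x) := by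
  obtain ⟨b, hb⟩ := Pool.Agent.H75R3.NN.main p hp1 hp
  refine ⟨b, fun n => ?_, fun x => unique_expansion b x⟩
  have := (Lp.coeFn_nonneg (b n)).2 (hb n)
  filter_upwards [this] with t ht
  exact ht

end Pool.Agent.Results.MP_ada34c_an.NonnegBasis
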